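import Pool.Agent.Lib.MP_26edac_al.Defs
import Pool.Agent.Lib.MP_26edac_al.NonPoly
import Pool.Agent.Lib.MP_26edac_al.Codim
import Pool.Agent.Lib.MP_26edac_al.Example

/-!
# A non-polynomial maximal commutative subalgebra of maximal dimension

For the contraction `𝔨 = sl₂ ⋉ sl₂` of `𝔤 = sl₂ × sl₂` (swap involution), with basis
`e, h, f, E, H, F`, Casimirs `C₁ = H² + 4EF`, `C₂ = hH + 2eF + 2fE`, put
`P = H C₂ + E² e` and `G = (P² - C₁ C₂²) / E`. The algebra generated by `E, C₁, C₂, P, G` is
maximal commutative of transcendence degree `4 = (dim 𝔨 + ind 𝔨) / 2`, and is isomorphic to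
`K[y₁, …, y₅] / (y₄² - y₂ y₃² - y₁ y₅)`, which is not a polynomial ring.
-/

namespace Pool.Agent.Results.MP_26edac_al.NonPolynomialMaximal

open Module Pool.Agent.MP_26edac

universe u

/-- For every algebraically closed field `K` of characteristic zero there are a semisimple Lie
algebra with an involution whose contraction has the codim-3 property, and a maximal commutative
subalgebra of the symmetric algebra of the contraction which has maximal dimension and is not a
polynomial algebra. -/
theorem result (K : Type u) [Field K] [IsAlgClosed K] [CharZero K] :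
    ∃ (𝔤 : Type u) (_ : LieRing 𝔤) (_ : LieAlgebra K 𝔤) (θ : 𝔤 →ₗ⁅K⁆ 𝔤),
      FiniteDimensional K 𝔤 ∧ LieAlgebra.IsSemisimple K 𝔤 ∧ (∀ x, θ (θ x) = x) ∧
      (∃ x, θ x ≠ x) ∧ CodimProperty K (Contraction θ) 3 ∧
      ∃ A : Subalgebra K (SymmetricAlgebra K (Contraction θ)),
        IsMaximalPoissonCommutative A ∧ HasMaximalDimension A ∧ ¬ IsPolynomialSubalgebra A := by
  refine ⟨Sl2 K × Sl2 K, inferInstance, inferInstance, swap K, inferInstance, semisimple_prod K,
    fun x => rfl, ⟨(Sl2.mk 1 0 0, 0), ?_⟩, codim_three (takiffBasis K) (takiffBasis_table K),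
    alg (takiffBasis K), alg_maximal (takiffBasis K) (takiffBasis_table K), ?_,
    not_polynomial (takiffBasis K)⟩
  · intro h
    have h1 : ((0 : Sl2 K), Sl2.mk (1 : K) 0 0) = (Sl2.mk 1 0 0, 0) := h
    have h2 : (0 : Sl2 K) 0 = Sl2.mk (1 : K) 0 0 0 := congrFun (congrArg Prod.fst h1) 0
    simp at h2
  · rw [HasMaximalDimension, trdeg_alg, lieIndex_eq (takiffBasis K) (takiffBasis_table K),
      finrank_eq_card_basis (takiffBasis K)]
    norm_num

end Pool.Agent.Results.MP_26edac_al.NonPolynomialMaximal
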